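import Pool.Agent.Helper31.CY.St2

/-!
# Project CY (MP_9583f0_gt): module LOB (local structure of the outermost radius at the `Y` points)
-/

set_option autoImplicit false

open Set Topology Filter

namespace Pool.Agent.Helper8.CY

open Pool.Agent.Helper31.CY

private lemma cat_near (hCTF : StCTF) {R m η : ℝ} (hR : 0 < R) (hη : 0 < η) :
    ∃ δ : ℝ, 0 < δ ∧ ∀ τ : ℝ, |τ| < δ → |cat R m τ - R| < η := by
  obtain ⟨h0, -, -, hd, -⟩ := hCTF R m hR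
  have hc : ContinuousAt (cat R m) 0 := (hd 0).continuousAt
  rw [Metric.continuousAt_iff] at hc
  obtain ⟨δ, hδ, h⟩ := hc η hη
  refine ⟨δ, hδ, fun τ hτ => ?_⟩
  have h2 : dist τ 0 < δ := by
    rw [Real.dist_eq, sub_zero]
    exact hτ
  have h3 := h h2
  rwa [Real.dist_eq, h0] at h3

private lemma upper (hCTF : StCTF) {N : Set (ℝ × ℝ)} {h t R ε : ℝ} (hR : 0 < R) (ht : t ∈ Ioo 0 h)
    (hRt : rho N t = R) {v : Fin 3 → ℝ × ℝ} (hε : 0 < ε)
    (hbox : ∀ x ∈ box (R, t) ε, x ∈ N ↔ ∃ i, onLeg (R, t) (v i) x)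
    (hmem : ∀ s ∈ Icc 0 h, (rho N s, s) ∈ N) (hmax : ∀ s ∈ Icc 0 h, ∀ x, (x, s) ∈ N → x ≤ rho N s)
    (husc : ∀ e : ℝ, 0 < e → ∃ δ : ℝ, 0 < δ ∧ ∀ s ∈ Icc 0 h, |s - t| < δ → rho N s < R + e)
    {i : Fin 3} (hi : 0 < (v i).2)
    (hcmp : ∃ δ : ℝ, 0 < δ ∧ ∀ l, 0 < (v l).2 → l ≠ i → ∀ τ, 0 < τ → τ < δ →
      cat R ((v l).1 / (v l).2) τ < cat R ((v i).1 / (v i).2) τ) :
    ∃ δ : ℝ, 0 < δ ∧ ∀ s ∈ Ico t (t + δ), rho N s = cat R ((v i).1 / (v i).2) (s - t) := by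
  obtain ⟨d1, hd1, h1⟩ := cat_near hCTF (m := (v i).1 / (v i).2) hR hε
  obtain ⟨d2, hd2, h2⟩ := husc ε hε
  obtain ⟨d3, hd3, h3⟩ := hcmp
  refine ⟨min (min d1 d2) (min (min d3 ε) (h - t)), ?_, ?_⟩
  · have := ht.2
    simp only [lt_min_iff]
    exact ⟨⟨hd1, hd2⟩, ⟨hd3, hε⟩, by linarith⟩
  · intro s hs
    obtain ⟨hs1, hs2⟩ := hs
    rcases eq_or_lt_of_le hs1 with rfl | hlt
    · rw [sub_self, (hCTF R _ hR).1, hRt]
    · have e1 : s - t < min (min d1 d2) (min (min d3 ε) (h - t)) := by linarith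
      simp only [lt_min_iff] at e1
      obtain ⟨⟨e1, e2⟩, ⟨e3, e4⟩, e5⟩ := e1
      have hab : |s - t| = s - t := abs_of_pos (by linarith)
      have hsI : s ∈ Icc 0 h := ⟨by linarith [ht.1], by linarith⟩
      have hc1 : |cat R ((v i).1 / (v i).2) (s - t) - R| < ε := h1 _ (by rw [hab]; exact e1)
      have hb1 : (cat R ((v i).1 / (v i).2) (s - t), s) ∈ box (R, t) ε := by
        refine ⟨hc1, ?_⟩
        show |s - t| < ε
        rw [hab]
        exact e4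
      have hx : (cat R ((v i).1 / (v i).2) (s - t), s) ∈ N :=
        (hbox _ hb1).2 ⟨i, Or.inl ⟨hi, hlt.le, rfl⟩⟩
      have hge := hmax s hsI _ hx
      have hlt2 := h2 s hsI (by rw [hab]; exact e2)
      have hcl := (abs_lt.1 hc1).1
      have hb2 : (rho N s, s) ∈ box (R, t) ε := by
        refine ⟨?_, ?_⟩
        · show |rho N s - R| < ε
          exact abs_lt.2 ⟨by linarith, by linarith⟩
        · show |s - t| < ε
          rw [hab]
          exact e4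
      obtain ⟨l, hl⟩ := (hbox _ hb2).1 (hmem s hsI)
      rcases hl with ⟨p1, p2, p3⟩ | ⟨p1, p2, p3⟩ | ⟨p1, p2, p3⟩
      · by_cases hli : l = i
        · subst hli
          exact p3
        · have h4 := h3 l p1 hli (s - t) (by linarith) e3
          change rho N s = cat R ((v l).1 / (v l).2) (s - t) at p3
          linarith
      · change s ≤ t at p2
        linarith
      · change s = t at p2
        linarith

private lemma lower (hCTF : StCTF) {N : Set (ℝ × ℝ)} {h t R ε : ℝ} (hR : 0 < R) (ht : t ∈ Ioo 0 h)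
    (hRt : rho N t = R) {v : Fin 3 → ℝ × ℝ} (hε : 0 < ε)
    (hbox : ∀ x ∈ box (R, t) ε, x ∈ N ↔ ∃ i, onLeg (R, t) (v i) x)
    (hmem : ∀ s ∈ Icc 0 h, (rho N s, s) ∈ N) (hmax : ∀ s ∈ Icc 0 h, ∀ x, (x, s) ∈ N → x ≤ rho N s)
    (husc : ∀ e : ℝ, 0 < e → ∃ δ : ℝ, 0 < δ ∧ ∀ s ∈ Icc 0 h, |s - t| < δ → rho N s < R + e)
    {j : Fin 3} (hj : (v j).2 < 0)
    (hcmp : ∃ δ : ℝ, 0 < δ ∧ ∀ l, (v l).2 < 0 → l ≠ j → ∀ τ, 0 < τ → τ < δ →
      cat R ((v l).1 / (v l).2) (-τ) < cat R ((v j).1 / (v j).2) (-τ)) :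
    ∃ δ : ℝ, 0 < δ ∧ ∀ s ∈ Ioc (t - δ) t, rho N s = cat R ((v j).1 / (v j).2) (s - t) := by
  obtain ⟨d1, hd1, h1⟩ := cat_near hCTF (m := (v j).1 / (v j).2) hR hε
  obtain ⟨d2, hd2, h2⟩ := husc ε hε
  obtain ⟨d3, hd3, h3⟩ := hcmp
  refine ⟨min (min d1 d2) (min (min d3 ε) t), ?_, ?_⟩
  · have := ht.1
    simp only [lt_min_iff]
    exact ⟨⟨hd1, hd2⟩, ⟨hd3, hε⟩, by linarith⟩
  · intro s hs
    obtain ⟨hs1, hs2⟩ := hs
    rcases eq_or_lt_of_le hs2 with rfl | hlt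
    · rw [sub_self, (hCTF R _ hR).1, hRt]
    · have e1 : t - s < min (min d1 d2) (min (min d3 ε) t) := by linarith
      simp only [lt_min_iff] at e1
      obtain ⟨⟨e1, e2⟩, ⟨e3, e4⟩, e5⟩ := e1
      have hab : |s - t| = t - s := by
        rw [abs_of_neg (by linarith)]
        ring
      have hsI : s ∈ Icc 0 h := ⟨by linarith, by linarith [ht.2]⟩
      have hc1 : |cat R ((v j).1 / (v j).2) (s - t) - R| < ε := h1 _ (by rw [hab]; exact e1)
      have hb1 : (cat R ((v j).1 / (v j).2) (s - t), s) ∈ box (R, t) ε := by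
        refine ⟨hc1, ?_⟩
        show |s - t| < ε
        rw [hab]
        exact e4
      have hx : (cat R ((v j).1 / (v j).2) (s - t), s) ∈ N :=
        (hbox _ hb1).2 ⟨j, Or.inr (Or.inl ⟨hj, hlt.le, rfl⟩)⟩
      have hge := hmax s hsI _ hx
      have hlt2 := h2 s hsI (by rw [hab]; exact e2)
      have hcl := (abs_lt.1 hc1).1
      have hb2 : (rho N s, s) ∈ box (R, t) ε := by
        refine ⟨?_, ?_⟩
        · show |rho N s - R| < ε
          exact abs_lt.2 ⟨by linarith, by linarith⟩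
        · show |s - t| < ε
          rw [hab]
          exact e4
      obtain ⟨l, hl⟩ := (hbox _ hb2).1 (hmem s hsI)
      rcases hl with ⟨p1, p2, p3⟩ | ⟨p1, p2, p3⟩ | ⟨p1, p2, p3⟩
      · change t ≤ s at p2
        linarith
      · by_cases hlj : l = j
        · subst hlj
          exact p3
        · have h4 := h3 l p1 hlj (t - s) (by linarith) e3
          rw [neg_sub] at h4
          change rho N s = cat R ((v l).1 / (v l).2) (s - t) at p3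
          linarith
      · change s = t at p2
        linarith

private lemma off_up (hCTF : StCTF) {N : Set (ℝ × ℝ)} {t R ε : ℝ} (hR : 0 < R)
    {v : Fin 3 → ℝ × ℝ} (hε : 0 < ε)
    (hbox : ∀ x ∈ box (R, t) ε, x ∈ N ↔ ∃ i, onLeg (R, t) (v i) x)
    {k : Fin 3} {m : ℝ} (hk : 0 < (v k).2) (hm : (v k).1 / (v k).2 < m)
    (hrho : ∃ δ : ℝ, 0 < δ ∧ ∀ s ∈ Ico t (t + δ), rho N s = cat R m (s - t)) :
    ∀ η : ℝ, 0 < η → ∃ x ∈ box (R, t) η, x ∈ N ∧ x.1 ≠ rho N x.2 ∧ t < x.2 := by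
  intro η hη
  obtain ⟨d0, hd0, h0⟩ := hrho
  obtain ⟨d1, hd1, h1⟩ := cat_near hCTF (m := (v k).1 / (v k).2) hR (lt_min hε hη)
  obtain ⟨-, -, -, -, -, -, -, -, -, hsep⟩ := hCTF R ((v k).1 / (v k).2) hR
  obtain ⟨d2, hd2, h2⟩ := hsep m hm
  have hex : ∃ τ : ℝ, 0 < τ ∧ τ < min (min d0 d1) (min d2 (min ε η)) := by
    refine exists_between ?_
    simp only [lt_min_iff]
    exact ⟨⟨hd0, hd1⟩, hd2, hε, hη⟩
  obtain ⟨τ, hτ, e⟩ := hex
  simp only [lt_min_iff] at e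
  obtain ⟨⟨e0, e1⟩, e2, e3, e4⟩ := e
  have hab : |τ| = τ := abs_of_pos hτ
  have hc := h1 τ (by rw [hab]; exact e1)
  rw [lt_min_iff] at hc
  have hsub : t + τ - t = τ := by ring
  refine ⟨(cat R ((v k).1 / (v k).2) τ, t + τ), ⟨hc.2, ?_⟩, ?_, ?_, ?_⟩
  · show |t + τ - t| < η
    rw [hsub, hab]
    exact e4
  · refine (hbox _ ⟨hc.1, ?_⟩).2 ⟨k, Or.inl ⟨hk, ?_, ?_⟩⟩
    · show |t + τ - t| < ε
      rw [hsub, hab]
      exact e3
    · show t ≤ t + τ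
      linarith
    · show cat R ((v k).1 / (v k).2) τ = cat R ((v k).1 / (v k).2) (t + τ - t)
      rw [hsub]
  · show cat R ((v k).1 / (v k).2) τ ≠ rho N (t + τ)
    rw [h0 (t + τ) ⟨by linarith, by linarith⟩, hsub]
    exact ne_of_lt (h2 τ hτ e2).1
  · show t < t + τ
    linarith

private lemma off_dn (hCTF : StCTF) {N : Set (ℝ × ℝ)} {t R ε : ℝ} (hR : 0 < R)
    {v : Fin 3 → ℝ × ℝ} (hε : 0 < ε)
    (hbox : ∀ x ∈ box (R, t) ε, x ∈ N ↔ ∃ i, onLeg (R, t) (v i) x)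
    {k : Fin 3} {m : ℝ} (hk : (v k).2 < 0) (hm : m < (v k).1 / (v k).2)
    (hrho : ∃ δ : ℝ, 0 < δ ∧ ∀ s ∈ Ioc (t - δ) t, rho N s = cat R m (s - t)) :
    ∀ η : ℝ, 0 < η → ∃ x ∈ box (R, t) η, x ∈ N ∧ x.1 ≠ rho N x.2 ∧ x.2 < t := by
  intro η hη
  obtain ⟨d0, hd0, h0⟩ := hrho
  obtain ⟨d1, hd1, h1⟩ := cat_near hCTF (m := (v k).1 / (v k).2) hR (lt_min hε hη)
  obtain ⟨-, -, -, -, -, -, -, -, -, hsep⟩ := hCTF R m hR
  obtain ⟨d2, hd2, h2⟩ := hsep _ hm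
  have hex : ∃ τ : ℝ, 0 < τ ∧ τ < min (min d0 d1) (min d2 (min ε η)) := by
    refine exists_between ?_
    simp only [lt_min_iff]
    exact ⟨⟨hd0, hd1⟩, hd2, hε, hη⟩
  obtain ⟨τ, hτ, e⟩ := hex
  simp only [lt_min_iff] at e
  obtain ⟨⟨e0, e1⟩, e2, e3, e4⟩ := e
  have hab : |-τ| = τ := by
    rw [abs_neg]
    exact abs_of_pos hτ
  have hc := h1 (-τ) (by rw [hab]; exact e1)
  rw [lt_min_iff] at hc
  have hsub : t - τ - t = -τ := by ring
  refine ⟨(cat R ((v k).1 / (v k).2) (-τ), t - τ), ⟨hc.2, ?_⟩, ?_, ?_, ?_⟩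
  · show |t - τ - t| < η
    rw [hsub, hab]
    exact e4
  · refine (hbox _ ⟨hc.1, ?_⟩).2 ⟨k, Or.inr (Or.inl ⟨hk, ?_, ?_⟩)⟩
    · show |t - τ - t| < ε
      rw [hsub, hab]
      exact e3
    · show t - τ ≤ t
      linarith
    · show cat R ((v k).1 / (v k).2) (-τ) = cat R ((v k).1 / (v k).2) (t - τ - t)
      rw [hsub]
  · show cat R ((v k).1 / (v k).2) (-τ) ≠ rho N (t - τ)
    rw [h0 (t - τ) ⟨by linarith, by linarith⟩, hsub]
    exact ne_of_lt (h2 τ hτ e2).2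
  · show t - τ < t
    linarith

private lemma off_hor {N : Set (ℝ × ℝ)} {t R ε : ℝ} (hR : 0 < R) (hRt : rho N t = R)
    {v : Fin 3 → ℝ × ℝ} (hε : 0 < ε)
    (hbox : ∀ x ∈ box (R, t) ε, x ∈ N ↔ ∃ i, onLeg (R, t) (v i) x)
    {k : Fin 3} (hk : v k = (-1, 0)) :
    ∀ η : ℝ, 0 < η → ∃ x ∈ box (R, t) η, x ∈ N ∧ x.1 ≠ rho N x.2 ∧ 0 ≤ x.1 ∧ x.1 < R ∧ x.2 = t := by
  intro η hη
  have hex : ∃ τ : ℝ, 0 < τ ∧ τ < min (min ε η) R := by
    refine exists_between ?_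
    simp only [lt_min_iff]
    exact ⟨⟨hε, hη⟩, hR⟩
  obtain ⟨τ, hτ, e⟩ := hex
  simp only [lt_min_iff] at e
  obtain ⟨⟨e1, e2⟩, e3⟩ := e
  have hsub : |R - τ - R| = τ := by
    have : R - τ - R = -τ := by ring
    rw [this, abs_neg]
    exact abs_of_pos hτ
  have hz : |t - t| = 0 := by
    rw [sub_self, abs_zero]
  refine ⟨(R - τ, t), ⟨?_, ?_⟩, ?_, ?_, ?_, ?_, rfl⟩
  · show |R - τ - R| < η
    rw [hsub]
    exact e2
  · show |t - t| < η
    rw [hz]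
    exact hη
  · refine (hbox _ ⟨?_, ?_⟩).2 ⟨k, Or.inr (Or.inr ⟨?_, rfl, ?_⟩)⟩
    · show |R - τ - R| < ε
      rw [hsub]
      exact e1
    · show |t - t| < ε
      rw [hz]
      exact hε
    · rw [hk]
    · show 0 ≤ (R - τ - R) * (v k).1
      rw [hk]
      show 0 ≤ (R - τ - R) * (-1)
      linarith
  · show R - τ ≠ rho N t
    rw [hRt]
    linarith
  · show 0 ≤ R - τ
    linarith
  · show R - τ < R
    linarith

private lemma fin3_cases {i j k l : Fin 3} (hij : i ≠ j) (hjk : j ≠ k) (hik : i ≠ k) : l = i ∨ l = j ∨ l = k := by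
  revert i j k l
  decide

theorem hLOB (hY3 : StY3) (hCTF : StCTF) (hRHO : StRHO) : StLOB := by
  intro N r0 r1 h hN hS t ht hY
  obtain ⟨-, -, hM, husc0⟩ := hRHO N r0 r1 h hN hS
  have htI : t ∈ Icc 0 h := ⟨ht.1.le, ht.2.le⟩
  have hR : 0 < rho N t := (hM t htI).2.1
  obtain ⟨R, hRt⟩ : ∃ R, rho N t = R := ⟨_, rfl⟩
  rw [hRt] at hY hR
  have hmem : ∀ s ∈ Icc 0 h, (rho N s, s) ∈ N := fun s hs => (hM s hs).1
  have hmax : ∀ s ∈ Icc 0 h, ∀ x, (x, s) ∈ N → x ≤ rho N s := fun s hs => (hM s hs).2.2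
  have husc : ∀ e : ℝ, 0 < e → ∃ δ : ℝ, 0 < δ ∧ ∀ s ∈ Icc 0 h, |s - t| < δ → rho N s < R + e := by
    intro e he
    have := husc0 t htI e he
    rwa [hRt] at this
  obtain ⟨v, hv1, hv0, ε, hε, hbox⟩ := hY
  obtain ⟨-, -, hcase⟩ := hY3 v hv1 hv0
  have hne : ∀ i, v i ≠ (1, 0) := by
    intro i hi
    have hb : (R + ε / 2, t) ∈ box (R, t) ε := by
      refine ⟨?_, ?_⟩
      · show |R + ε / 2 - R| < ε
        have : R + ε / 2 - R = ε / 2 := by ring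
        rw [this, abs_of_pos (by linarith)]
        linarith
      · show |t - t| < ε
        rw [sub_self, abs_zero]
        exact hε
    have hx : (R + ε / 2, t) ∈ N := by
      refine (hbox _ hb).2 ⟨i, Or.inr (Or.inr ⟨?_, rfl, ?_⟩)⟩
      · rw [hi]
      · show 0 ≤ (R + ε / 2 - R) * (v i).1
        rw [hi]
        show 0 ≤ (R + ε / 2 - R) * 1
        linarith
    have := hmax t htI _ hx
    rw [hRt] at this
    linarith
  obtain ⟨i, j, k, hij, hjk, hik, hi, hj, hlt, hk⟩ := hcase hne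
  have hsepU : ∀ m m' : ℝ, m < m' → ∃ δ : ℝ, 0 < δ ∧ ∀ τ, 0 < τ → τ < δ →
      cat R m τ < cat R m' τ ∧ cat R m' (-τ) < cat R m (-τ) := by
    intro m m' hmm
    obtain ⟨-, -, -, -, -, -, -, -, -, hsep⟩ := hCTF R m hR
    exact hsep m' hmm
  have hcU : ∃ δ : ℝ, 0 < δ ∧ ∀ l, 0 < (v l).2 → l ≠ i → ∀ τ, 0 < τ → τ < δ →
      cat R ((v l).1 / (v l).2) τ < cat R ((v i).1 / (v i).2) τ := by
    rcases hk with ⟨k1, k2, -⟩ | ⟨k1, -, -⟩ | ⟨k1, -, -⟩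
    · obtain ⟨δ, hδ, hd⟩ := hsepU _ _ k2
      refine ⟨δ, hδ, fun l hl hli τ h1 h2 => ?_⟩
      rcases fin3_cases (l := l) hij hjk hik with h3 | h3 | h3
      · exact absurd h3 hli
      · rw [h3] at hl
        linarith
      · rw [h3]
        exact (hd τ h1 h2).1
    · refine ⟨1, one_pos, fun l hl hli τ h1 h2 => ?_⟩
      rcases fin3_cases (l := l) hij hjk hik with h3 | h3 | h3
      · exact absurd h3 hli
      · rw [h3] at hl
        linarith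
      · rw [h3] at hl
        linarith
    · refine ⟨1, one_pos, fun l hl hli τ h1 h2 => ?_⟩
      rcases fin3_cases (l := l) hij hjk hik with h3 | h3 | h3
      · exact absurd h3 hli
      · rw [h3] at hl
        linarith
      · rw [h3, k1] at hl
        exact absurd hl (lt_irrefl _)
  have hcL : ∃ δ : ℝ, 0 < δ ∧ ∀ l, (v l).2 < 0 → l ≠ j → ∀ τ, 0 < τ → τ < δ →
      cat R ((v l).1 / (v l).2) (-τ) < cat R ((v j).1 / (v j).2) (-τ) := by
    rcases hk with ⟨k1, -, -⟩ | ⟨k1, k2, -⟩ | ⟨k1, -, -⟩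
    · refine ⟨1, one_pos, fun l hl hlj τ h1 h2 => ?_⟩
      rcases fin3_cases (l := l) hij hjk hik with h3 | h3 | h3
      · rw [h3] at hl
        linarith
      · exact absurd h3 hlj
      · rw [h3] at hl
        linarith
    · obtain ⟨δ, hδ, hd⟩ := hsepU _ _ k2
      refine ⟨δ, hδ, fun l hl hlj τ h1 h2 => ?_⟩
      rcases fin3_cases (l := l) hij hjk hik with h3 | h3 | h3
      · rw [h3] at hl
        linarith
      · exact absurd h3 hlj
      · rw [h3]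
        exact (hd τ h1 h2).2
    · refine ⟨1, one_pos, fun l hl hlj τ h1 h2 => ?_⟩
      rcases fin3_cases (l := l) hij hjk hik with h3 | h3 | h3
      · rw [h3] at hl
        linarith
      · exact absurd h3 hlj
      · rw [h3, k1] at hl
        exact absurd hl (lt_irrefl _)
  have hU := upper hCTF hR ht hRt hε hbox hmem hmax husc hi hcU
  have hL := lower hCTF hR ht hRt hε hbox hmem hmax husc hj hcL
  have hU' := hU
  have hL' := hL
  obtain ⟨δ1, hδ1, hrU⟩ := hU'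
  obtain ⟨δ2, hδ2, hrL⟩ := hL'
  have hmin : 0 < min δ1 δ2 := lt_min hδ1 hδ2
  rw [hRt]
  refine ⟨(v j).1 / (v j).2, (v i).1 / (v i).2, min δ1 δ2, hmin, hlt, ?_, ?_, ?_⟩
  · intro s hs
    refine hrL s ⟨?_, hs.2⟩
    have := hs.1
    have := min_le_right δ1 δ2
    linarith
  · intro s hs
    refine hrU s ⟨hs.1, ?_⟩
    have := hs.2
    have := min_le_left δ1 δ2
    linarith
  · rcases hk with ⟨k1, k2, k3⟩ | ⟨k1, k2, k3⟩ | ⟨k1, k2, k3⟩
    · have hoff := off_up hCTF hR hε hbox k1 k2 hU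
      obtain ⟨x, -, hx1, hx2, hx3⟩ := hoff 1 one_pos
      refine ⟨Or.inl k3.le, Or.inr ⟨x, hx1, hx2, hx3⟩, Or.inr ⟨x, hx1, hx2, ne_of_gt hx3⟩, ?_⟩
      intro η hη
      obtain ⟨y, hy0, hy1, hy2, -⟩ := hoff η hη
      exact ⟨y, hy0, hy1, hy2⟩
    · have hoff := off_dn hCTF hR hε hbox k1 k2 hL
      obtain ⟨x, -, hx1, hx2, hx3⟩ := hoff 1 one_pos
      refine ⟨Or.inr ⟨x, hx1, hx2, hx3⟩, Or.inl k3.le, Or.inr ⟨x, hx1, hx2, ne_of_lt hx3⟩, ?_⟩
      intro η hη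
      obtain ⟨y, hy0, hy1, hy2, -⟩ := hoff η hη
      exact ⟨y, hy0, hy1, hy2⟩
    · have hoff := off_hor hR hRt hε hbox k1
      obtain ⟨x, -, hx1, hx2, hx3, hx4, hx5⟩ := hoff 1 one_pos
      refine ⟨Or.inl k2.ge, Or.inl k3.le, Or.inl ⟨k3, k2, x.1, hx3, hx4, ?_⟩, ?_⟩
      · have : (x.1, t) = x := by
          rw [← hx5]
        rw [this]
        exact hx1
      · intro η hη
        obtain ⟨y, hy0, hy1, hy2, -⟩ := hoff η hη
        exact ⟨y, hy0, hy1, hy2⟩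

end Pool.Agent.Helper8.CY
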